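import Mathlib
import Pool.Agent.H321R2.OSI.Lower

/-!
# Q1: with constant failure probability relative error `1 + O(ε)` fails
-/

namespace Pool.Agent.Results.MP_082b65_an.ConstantFailureCounterexample

open MeasureTheory Matrix Finset Pool.Agent.H321R2.OSI

/-- The assertion of Q1 with failure probability `δ`, constant `C`, success probability `p₀`,
restricted to `0 < ε ≤ ε₀`, `ε < 1`: for every real matrix `A` (`n × d`), every `1 ≤ r ≤ d` and
every random `d × k` matrix `S` that is an oblivious subspace injection with dimension `r`,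
injectivity `1 - ε` and failure probability `δ`, there is an event `D` of probability at least
`p₀` on which `‖A - Ã‖_F ≤ (1 + C ε) ‖A - A_r‖_F`. -/
def RelErrBound (δ ε₀ C p₀ : ℝ) : Prop :=
  ∀ ε : ℝ, 0 < ε → ε ≤ ε₀ → ε < 1 →
    ∀ (n d k r : ℕ), 1 ≤ r → r ≤ d → ∀ (A : Matrix (Fin n) (Fin d) ℝ)
      (W : Type) (_ : MeasurableSpace W) (P : Measure W) (_ : IsProbabilityMeasure P)
      (S : W → Matrix (Fin d) (Fin k) ℝ), IsOSI P S r (1 - ε) δ →
        ∃ D : Set W, MeasurableSet D ∧ p₀ ≤ P.real D ∧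
          ∀ w ∈ D, frob (A - rsvd A (S w)) ≤ (1 + C * ε) * bestErr A r

lemma bestErr_nonneg {n d : ℕ} (A : Matrix (Fin n) (Fin d) ℝ) (r : ℕ) : 0 ≤ bestErr A r := by
  unfold bestErr
  apply Real.sInf_nonneg
  rintro e ⟨B, _, rfl⟩
  exact Real.sqrt_nonneg _

/-- The example: one fixed matrix `A` and one fixed random matrix `S` on a finite uniform
probability space, which is an oblivious subspace injection of dimension `1` with injectivity
`1 - ε` for every `ε ≥ 0` and failure probability `δ`, while for every outcome the error exceeds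
the optimal one by the factor `1 + η`. -/
theorem example_exists (δ : ℝ) (hδ : 0 < δ) :
    ∃ (η : ℝ) (_ : 0 < η) (n k : ℕ) (_ : 1 ≤ n) (A : Matrix (Fin n) (Fin n) ℝ) (W : Type)
      (_ : MeasurableSpace W) (P : Measure W) (_ : IsProbabilityMeasure P)
      (S : W → Matrix (Fin n) (Fin k) ℝ),
      (∀ ε : ℝ, 0 ≤ ε → IsOSI P S 1 (1 - ε) δ) ∧
      ∀ w, 0 < frob (A - rsvd A (S w)) ∧
        (1 + η) * bestErr A 1 ≤ frob (A - rsvd A (S w)) := by
  -- K with δ K ≥ 2
  obtain ⟨K0, hK0⟩ := exists_nat_ge (2 / δ)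
  set K := K0 + 2 with hKdef
  have hK : 2 ≤ K := by omega
  haveI : NeZero K := ⟨by omega⟩
  have hKr : (2 : ℝ) ≤ K := by exact_mod_cast hK
  have hKK : (K0 : ℝ) ≤ K := by rw [hKdef]; push_cast; linarith
  have hδK : 2 ≤ δ * K := by
    have h1 : 2 / δ ≤ K := hK0.trans hKK
    rw [div_le_iff₀ hδ] at h1
    linarith
  set μ : ℝ := 1 / (2 * (K : ℝ) ^ 2) with hμdef
  have hμ0 : 0 < μ := by positivity
  have hμ1 : μ ≤ 1 := by
    rw [hμdef, div_le_one (by positivity)]
    nlinarith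
  have hμK : 2 * μ ^ 2 * (K : ℝ) ^ 3 ≤ 1 := by
    have : 2 * μ ^ 2 * (K : ℝ) ^ 3 = 1 / (2 * (K : ℝ)) := by
      rw [hμdef]; field_simp
    rw [this, div_le_one (by positivity)]
    linarith
  set s : ℝ := μ / 2 with hs
  have hs0 : 0 < s := by positivity
  have hs1 : s ≤ 1 := by rw [hs]; linarith
  have hs2 : s ^ 2 ≤ 1 := by nlinarith
  -- the prime
  obtain ⟨q, hq⟩ := exists_nat_ge (max (8 / s ^ 2) (2 / μ + 1))
  obtain ⟨p, hpq, hp⟩ := Nat.exists_infinite_primes (q + 2)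
  haveI : Fact p.Prime := ⟨hp⟩
  have hpr : (q : ℝ) + 2 ≤ p := by exact_mod_cast hpq
  have hp8 : 8 / s ^ 2 ≤ p := by
    have := (le_max_left (8 / s ^ 2) (2 / μ + 1)).trans hq
    linarith
  have hpμ : 2 / μ ≤ (p : ℝ) - 1 := by
    have := (le_max_right (8 / s ^ 2) (2 / μ + 1)).trans hq
    linarith
  have hp1 : (0 : ℝ) < (p : ℝ) - 1 := lt_of_lt_of_le (by positivity) hpμ
  have hinv : 1 / ((p : ℝ) - 1) ≤ μ / 2 := by
    rw [div_le_iff₀ hp1]
    rw [div_le_iff₀ hμ0] at hpμ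
    linarith
  obtain ⟨w, hw1, hw2, hw3⟩ := exists_lowcoh p
  set b := brow s w with hb
  have hgram1 : ∀ j, gram b j j = 1 := by
    intro j
    refine Fin.cases ?_ (fun j => ?_) j
    · exact gram_brow_zero s w
    · rw [hb, gram_brow_succ s hs2, hw1]; ring
  have hgram2 : ∀ j l, j ≠ l → |gram b j l| ≤ μ := by
    intro j l
    refine Fin.cases ?_ (fun j => ?_) j
    · refine Fin.cases (fun h => absurd rfl h) (fun l _ => ?_) l
      rw [hb, gram_brow_zero_succ, abs_of_pos hs0, hs]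
      linarith
    · refine Fin.cases (fun _ => ?_) (fun l h => ?_) l
      · rw [gram_symm, hb, gram_brow_zero_succ, abs_of_pos hs0, hs]
        linarith
      · have hjl : j ≠ l := fun h' => h (by rw [h'])
        rw [hb, gram_brow_succ s hs2]
        have h1 := (hw2 j l hjl).trans hinv
        have h2 : |(1 - s ^ 2) * ∑ i, w j i * w l i| ≤ μ / 2 := by
          rw [abs_mul, abs_of_nonneg (by linarith : (0 : ℝ) ≤ 1 - s ^ 2)]
          have h3 : 0 ≤ |∑ i, w j i * w l i| := abs_nonneg _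
          nlinarith
        have h4 : s ^ 2 ≤ μ / 2 := by
          rw [hs]; nlinarith
        calc |s ^ 2 + (1 - s ^ 2) * ∑ i, w j i * w l i|
            ≤ |s ^ 2| + |(1 - s ^ 2) * ∑ i, w j i * w l i| := abs_add_le _ _
          _ ≤ μ / 2 + μ / 2 := by
              rw [abs_of_nonneg (sq_nonneg s)]
              exact add_le_add h4 h2
          _ = μ := by ring
  have hN : 0 < p ^ 3 := pow_pos hp.pos 3
  have hpp : (0 : ℝ) < p := by linarith
  have hk : ((p ^ 2 : ℕ) : ℝ) + 1 ≤ ((p ^ 3 : ℕ) : ℝ) * s ^ 2 / 4 := by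
    have h1 : 8 ≤ (p : ℝ) * s ^ 2 := by
      rw [div_le_iff₀ (by positivity)] at hp8
      exact hp8
    push_cast
    have h2 : (p : ℝ) ^ 3 * s ^ 2 = (p : ℝ) ^ 2 * (p * s ^ 2) := by ring
    have h3 : (1 : ℝ) ≤ (p : ℝ) ^ 2 := by
      have : (1 : ℝ) ≤ p := by linarith
      nlinarith
    rw [h2]
    nlinarith
  have hNr : (0 : ℝ) < ((p ^ 3 : ℕ) : ℝ) := by exact_mod_cast hN
  set η : ℝ := s ^ 2 / 16 with hη
  have hη0 : 0 < η := by positivity
  refine ⟨η, hη0, p ^ 3 + 1, p ^ 2 + 1, by omega, diagonal (avec (p ^ 3)), Smp K (p ^ 3 + 1),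
    inferInstance, unif (Smp K (p ^ 3 + 1)), inferInstance, Smat K b, ?_, ?_⟩
  · intro ε hε
    exact isOSI_Smat hK b hgram1 μ hgram2 hμK δ hδK ε hε
  · intro ω
    have h1 := err_lower hK s hs1 hs0 w hw3 hN hk ω
    rw [← hb] at h1
    have hf : 0 ≤ frob (diagonal (avec (p ^ 3)) - rsvd (diagonal (avec (p ^ 3))) (Smat K b ω)) :=
      Real.sqrt_nonneg _
    generalize frob (diagonal (avec (p ^ 3)) - rsvd (diagonal (avec (p ^ 3))) (Smat K b ω)) = f
      at h1 hf ⊢
    have h2 := bestErr_le (p ^ 3)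
    have h3 := bestErr_nonneg (diagonal (avec (p ^ 3))) 1
    generalize bestErr (diagonal (avec (p ^ 3))) 1 = B at h2 h3 ⊢
    generalize ((p ^ 3 : ℕ) : ℝ) = N at h1 h2 hNr
    have h4 : B ^ 2 ≤ N := by
      calc B ^ 2 ≤ Real.sqrt N ^ 2 := pow_le_pow_left₀ h3 h2 2
        _ = N := Real.sq_sqrt hNr.le
    constructor
    · rcases hf.lt_or_eq with h | h
      · exact h
      · rw [← h] at h1
        nlinarith [mul_pos hNr (by positivity : 0 < s ^ 2)]
    · have h5 : (1 + η) ^ 2 ≤ 1 + s ^ 2 / 4 := by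
        rw [hη]; nlinarith
      have h6 : ((1 + η) * B) ^ 2 ≤ f ^ 2 := by
        calc ((1 + η) * B) ^ 2 = (1 + η) ^ 2 * B ^ 2 := by ring
          _ ≤ (1 + s ^ 2 / 4) * N := by
              apply mul_le_mul h5 h4 (sq_nonneg _) (by positivity)
          _ ≤ f ^ 2 := by linarith
      exact (pow_le_pow_iff_left₀ (by positivity) hf (by norm_num)).1 h6

/-- **Negative answer to Q1.** For every constant failure probability `δ > 0` (in particular
`δ = 1/100`), every `ε₀ > 0`, every constant `C` and every `p₀ > 0`, the relative-error bound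
fails, already for `r = 1`. In fact there are `η > 0`, one matrix `A` and one random matrix `S`
that is an oblivious subspace injection of dimension `1` with failure probability `δ` and
injectivity `1 - ε` for all `ε ≥ 0` at once, with `‖A - Ã‖_F ≥ (1 + η) ‖A - A_1‖_F` and
`‖A - Ã‖_F > 0` for every outcome. -/
theorem result :
    (∀ δ : ℝ, 0 < δ → ∀ ε₀ : ℝ, 0 < ε₀ → ∀ C p₀ : ℝ, 0 < p₀ → ¬ RelErrBound δ ε₀ C p₀) ∧
    (∀ δ : ℝ, 0 < δ →
      ∃ (η : ℝ) (_ : 0 < η) (n k : ℕ) (_ : 1 ≤ n) (A : Matrix (Fin n) (Fin n) ℝ) (W : Type)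
        (_ : MeasurableSpace W) (P : Measure W) (_ : IsProbabilityMeasure P)
        (S : W → Matrix (Fin n) (Fin k) ℝ),
        (∀ ε : ℝ, 0 ≤ ε → IsOSI P S 1 (1 - ε) δ) ∧
        ∀ w, 0 < frob (A - rsvd A (S w)) ∧
          (1 + η) * bestErr A 1 ≤ frob (A - rsvd A (S w))) := by
  refine ⟨?_, example_exists⟩
  intro δ hδ ε₀ hε₀ C p₀ hp₀ h
  obtain ⟨η, hη, n, k, hn, A, W, mW, P, hP, S, hS, hw⟩ := example_exists δ hδ
  set ε : ℝ := min (min ε₀ (1 / 2)) (η / (2 * (|C| + 1))) with hε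
  have hC : (0 : ℝ) < |C| + 1 := by positivity
  have hε0 : 0 < ε := by
    rw [hε]
    exact lt_min (lt_min hε₀ (by norm_num)) (by positivity)
  have hε1 : ε ≤ ε₀ := (min_le_left _ _).trans (min_le_left _ _)
  have hε2 : ε < 1 := by
    have : ε ≤ 1 / 2 := (min_le_left _ _).trans (min_le_right _ _)
    linarith
  have hε3 : ε ≤ η / (2 * (|C| + 1)) := min_le_right _ _
  obtain ⟨D, hD1, hD2, hD3⟩ := h ε hε0 hε1 hε2 n n k 1 le_rfl hn A W mW P hP S (hS ε hε0.le)
  have hne : D.Nonempty := by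
    by_contra hcon
    rw [Set.not_nonempty_iff_eq_empty] at hcon
    rw [hcon] at hD2
    simp at hD2
    linarith
  obtain ⟨w, hwD⟩ := hne
  have h1 := hD3 w hwD
  obtain ⟨h2, h3⟩ := hw w
  have h4 := bestErr_nonneg A 1
  have h5 : C * ε ≤ η / 2 := by
    have h6 : C * ε ≤ |C| * ε := mul_le_mul_of_nonneg_right (le_abs_self C) hε0.le
    have h7 : |C| * ε ≤ (|C| + 1) * ε := by nlinarith
    have h8 : (|C| + 1) * ε ≤ (|C| + 1) * (η / (2 * (|C| + 1))) :=
      mul_le_mul_of_nonneg_left hε3 hC.le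
    have h9 : (|C| + 1) * (η / (2 * (|C| + 1))) = η / 2 := by field_simp
    linarith
  have h10 : (1 + C * ε) * bestErr A 1 ≤ (1 + η / 2) * bestErr A 1 :=
    mul_le_mul_of_nonneg_right (by linarith) h4
  have h11 : (η / 2) * bestErr A 1 ≤ 0 := by nlinarith
  have h12 : bestErr A 1 = 0 := by
    apply le_antisymm _ h4
    by_contra hcon
    push Not at hcon
    nlinarith
  rw [h12] at h1
  linarith

end Pool.Agent.Results.MP_082b65_an.ConstantFailureCounterexample
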